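import Mathlib

set_option autoImplicit false

open Topology Filter Set
open scoped ENNReal

namespace Pool.Agent.Results.MP_0c7c8f_al.NoFinest

/-- The monoid `End(ℕ,<)` of strictly increasing maps under composition. -/
def EndN : Submonoid (Function.End ℕ) where
  carrier := {f | StrictMono f}
  one_mem' := strictMono_id
  mul_mem' := fun hf hg => StrictMono.comp hf hg

/-- Polish semigroup topologies on `End(ℕ,<)`. -/
def IsPolishSemigroupTop (t : TopologicalSpace EndN) : Prop :=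
  @ContinuousMul EndN t _ ∧ @PolishSpace EndN t

theorem polish_gd {X : Type} [TopologicalSpace X] [PolishSpace X] {s : Set X} (hs : IsGδ s) :
    PolishSpace s := by
  obtain ⟨U, hU, rfl⟩ := hs.eq_iInter_nat
  haveI : ∀ n, PolishSpace (U n) := fun n => (hU n).polishSpace
  let φ : (⋂ n, U n : Set X) → ∀ n, U n := fun x n => ⟨x.1, mem_iInter.1 x.2 n⟩
  have hc : Continuous φ := continuous_pi fun n => continuous_subtype_val.subtype_mk _
  have he : IsEmbedding φ :=
    IsEmbedding.of_comp hc (continuous_subtype_val.comp (continuous_apply 0)) IsEmbedding.subtypeVal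
  refine IsClosedEmbedding.polishSpace (f := φ) ⟨he, ?_⟩
  have : range φ = ⋂ n, {y | (y n).1 = (y 0).1} := by
    ext y
    simp only [mem_iInter, mem_setOf_eq]
    constructor
    · rintro ⟨x, rfl⟩ n; rfl
    · intro h
      exact ⟨⟨(y 0).1, mem_iInter.2 fun n => h n ▸ (y n).2⟩, funext fun n => Subtype.ext (h n).symm⟩
  rw [this]
  exact isClosed_iInter fun n => isClosed_eq (continuous_subtype_val.comp (continuous_apply n))
    (continuous_subtype_val.comp (continuous_apply 0))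

open Classical in
noncomputable def tm (u : ℕ → ℝ≥0∞) (g : ℕ → ℕ) (d : ℕ) : ℝ≥0∞ :=
  if ∃ n ≤ d, g n = d then 0 else u d

noncomputable def Sg (u : ℕ → ℝ≥0∞) (g : ℕ → ℕ) : ℝ≥0∞ := ∑' d, tm u g d

theorem ex_iff {g : ℕ → ℕ} (hg : StrictMono g) (d : ℕ) : (∃ n ≤ d, g n = d) ↔ d ∈ range g :=
  ⟨fun ⟨n, _, h⟩ => ⟨n, h⟩, fun ⟨n, h⟩ => ⟨n, h ▸ hg.id_le n, h⟩⟩

theorem tm_of_mem {u : ℕ → ℝ≥0∞} {g : ℕ → ℕ} (hg : StrictMono g) {d : ℕ} (h : d ∈ range g) :
    tm u g d = 0 := if_pos ((ex_iff hg d).2 h)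

theorem tm_of_not {u : ℕ → ℝ≥0∞} {g : ℕ → ℕ} (hg : StrictMono g) {d : ℕ} (h : d ∉ range g) :
    tm u g d = u d := if_neg fun h' => h ((ex_iff hg d).1 h')

theorem tm_mono {u v : ℕ → ℝ≥0∞} {g : ℕ → ℕ} {d : ℕ} {K : ℝ≥0∞} (h : u d ≤ K * v d) :
    tm u g d ≤ K * tm v g d := by
  unfold tm; split_ifs
  · exact zero_le
  · exact h

theorem tm_congr {u v : ℕ → ℝ≥0∞} {g g' : ℕ → ℕ} {d : ℕ} (h : u d = v d)
    (h' : ∀ n ≤ d, g n = g' n) : tm u g d = tm v g' d := by
  unfold tm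
  have : (∃ n ≤ d, g n = d) ↔ ∃ n ≤ d, g' n = d :=
    exists_congr fun n => and_congr_right fun hn => by rw [h' n hn]
  by_cases h1 : ∃ n ≤ d, g n = d
  · rw [if_pos h1, if_pos (this.1 h1)]
  · rw [if_neg h1, if_neg (fun h2 => h1 (this.2 h2)), h]

theorem agree (g : ℕ → ℕ) (M : ℕ) : ∀ᶠ g' in 𝓝 g, ∀ n ≤ M, g' n = g n := by
  have : ∀ᶠ g' in 𝓝 g, ∀ n ∈ Finset.range (M + 1), g' n = g n := by
    rw [eventually_all_finset]
    intro n _
    exact (continuous_apply n).continuousAt (x := g) (show {g n} ∈ _ by simp)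
  filter_upwards [this] with g' h n hn using h n (Finset.mem_range.2 (by omega))

theorem lsc (u : ℕ → ℝ≥0∞) : LowerSemicontinuous (Sg u) := by
  refine lowerSemicontinuous_tsum fun d => Continuous.lowerSemicontinuous ?_
  rw [continuous_iff_continuousAt]
  intro g
  refine tendsto_const_nhds.congr' ?_
  filter_upwards [agree g d] with g' h using tm_congr rfl fun n hn => (h n hn).symm

theorem Sg_comp (u : ℕ → ℝ≥0∞) {f g : ℕ → ℕ} (hf : StrictMono f) (hg : StrictMono g) :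
    Sg u (f ∘ g) = Sg u f + Sg (u ∘ f) g := by
  classical
  have h1 : ∀ m, tm u (f ∘ g) m = tm u f m + if m ∈ range f then tm u (f ∘ g) m else 0 := by
    intro m
    by_cases hm : m ∈ range f
    · rw [if_pos hm, tm_of_mem hf hm, zero_add]
    · rw [if_neg hm, add_zero, tm_of_not hf hm,
        tm_of_not (hf.comp hg) fun h => hm (range_comp_subset_range g f h)]
  unfold Sg
  rw [tsum_congr h1, ENNReal.tsum_add]
  congr 1
  rw [← hf.injective.tsum_eq (f := fun m => if m ∈ range f then tm u (f ∘ g) m else 0)]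
  · refine tsum_congr fun d => ?_
    rw [if_pos (mem_range_self d)]
    by_cases hd : d ∈ range g
    · obtain ⟨n, rfl⟩ := hd
      rw [tm_of_mem (hf.comp hg) (d := f (g n)) ⟨n, rfl⟩, tm_of_mem hg ⟨n, rfl⟩]
    · rw [tm_of_not hg hd, tm_of_not (hf.comp hg)]
      · rfl
      · rintro ⟨n, hn⟩
        exact hd ⟨n, hf.injective hn⟩
  · intro m hm
    by_contra h
    exact hm (if_neg h)

structure Wt (w : ℕ → ℝ≥0∞) : Prop where
  anti : Antitone w
  low : ∀ m : ℕ, ((m + 1 : ℕ) : ℝ≥0∞)⁻¹ ≤ w m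
  dbl : ∀ C : ℕ, ∃ K : ℝ≥0∞, K ≠ ∞ ∧ ∀ n m, m + 1 ≤ C * (n + 1) → w n ≤ K * w m

theorem split (u : ℕ → ℝ≥0∞) (g : ℕ → ℕ) (M : ℕ) :
    Sg u g = ∑ d ∈ Finset.range M, tm u g d + ∑' d, tm u g (d + M) :=
  (ENNReal.summable.sum_add_tsum_nat_add' (k := M)).symm

theorem tail {u : ℕ → ℝ≥0∞} {g : ℕ → ℕ} (h : Sg u g ≠ ∞) {ε : ℝ≥0∞} (hε : 0 < ε) :
    ∃ M, ∑' d, tm u g (d + M) < ε :=
  ((ENNReal.tendsto_sum_nat_add _ h).eventually (gt_mem_nhds hε)).exists

theorem linear {w : ℕ → ℝ≥0∞} (hw : Wt w) {f : ℕ → ℕ} (hf : StrictMono f) (h : Sg w f ≠ ∞) :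
    ∃ C, ∀ n, f n + 1 ≤ C * (n + 1) := by
  classical
  obtain ⟨N, hN⟩ := tail h (show (0 : ℝ≥0∞) < 2⁻¹ by simp)
  refine ⟨2 * N + 3, fun n => ?_⟩
  let A := (Finset.range (f n)).filter fun d => d + N ∉ range f ∧ d + N < f n
  have h1 : f n ≤ N + n + A.card := by
    have : Finset.range (f n) ⊆ Finset.range N ∪ (Finset.range n).image f ∪
        A.image (fun d => d + N) := by
      intro m hm
      have hm' := Finset.mem_range.1 hm
      simp only [Finset.mem_union, Finset.mem_range, Finset.mem_image]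
      by_cases a : m < N
      · exact Or.inl (Or.inl a)
      by_cases b : m ∈ range f
      · obtain ⟨k, rfl⟩ := b
        exact Or.inl (Or.inr ⟨k, hf.lt_iff_lt.1 hm', rfl⟩)
      · have e : m - N + N = m := by omega
        refine Or.inr ⟨m - N, Finset.mem_filter.2 ⟨Finset.mem_range.2 (by omega), ?_⟩, e⟩
        rw [e]; exact ⟨b, hm'⟩
    have h2 := Finset.card_le_card this
    have h3 := Finset.card_union_le (Finset.range N ∪ (Finset.range n).image f)
      (A.image fun d => d + N)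
    have h4 := Finset.card_union_le (Finset.range N) ((Finset.range n).image f)
    have h5 : ((Finset.range n).image f).card ≤ (Finset.range n).card := Finset.card_image_le
    have h6 : (A.image fun d => d + N).card ≤ A.card := Finset.card_image_le
    simp only [Finset.card_range] at h2 h4 h5
    omega
  have h2 : (A.card : ℝ≥0∞) * ((f n + 1 : ℕ) : ℝ≥0∞)⁻¹ ≤ 2⁻¹ := by
    refine le_trans ?_ ((ENNReal.sum_le_tsum A).trans hN.le)
    rw [← nsmul_eq_mul]
    apply Finset.card_nsmul_le_sum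
    intro d hd
    obtain ⟨-, a, b⟩ := Finset.mem_filter.1 hd
    rw [tm_of_not hf a]
    exact (hw.low (f n)).trans (hw.anti b.le)
  have h3 : 2 * A.card ≤ f n + 1 := by
    rw [← div_eq_mul_inv, ENNReal.div_le_iff (by simp) (by simp), mul_comm, ← div_eq_mul_inv,
      ENNReal.le_div_iff_mul_le (by simp) (by simp)] at h2
    have : ((A.card * 2 : ℕ) : ℝ≥0∞) ≤ ((f n + 1 : ℕ) : ℝ≥0∞) := by simpa using h2
    have := Nat.cast_le.1 this
    omega
  nlinarith

theorem le_tm {w : ℕ → ℝ≥0∞} (hw : Wt w) {f : ℕ → ℕ} (hf : StrictMono f) (g : ℕ → ℕ) (d : ℕ) :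
    tm (w ∘ f) g d ≤ tm w g d := by
  simpa using tm_mono (u := w ∘ f) (v := w) (g := g) (K := 1) (d := d)
    (by simpa using hw.anti (hf.id_le d))

theorem fin_iff {w : ℕ → ℝ≥0∞} (hw : Wt w) {f g : ℕ → ℕ} (hf : StrictMono f)
    (hg : StrictMono g) : Sg w (f ∘ g) = ∞ ↔ Sg w f = ∞ ∨ Sg w g = ∞ := by
  rw [Sg_comp w hf hg, ENNReal.add_eq_top]
  by_cases h : Sg w f = ∞
  · simp [h]
  simp only [h, false_or]
  constructor
  · intro h1
    exact top_le_iff.1 (h1 ▸ ENNReal.tsum_le_tsum (le_tm hw hf g))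
  · intro h1
    obtain ⟨C, hC⟩ := linear hw hf h
    obtain ⟨K, hK, hK'⟩ := hw.dbl C
    have : Sg w g ≤ K * Sg (w ∘ f) g := by
      unfold Sg
      rw [← ENNReal.tsum_mul_left]
      exact ENNReal.tsum_le_tsum fun d => tm_mono (hK' d (f d) (hC d))
    by_contra h2
    exact ENNReal.mul_ne_top hK h2 (top_le_iff.1 (h1 ▸ this))

open Classical in
noncomputable def Φ (w : ℕ → ℝ≥0∞) (f : EndN) : (ℕ → ℕ) × ℝ≥0∞ × Bool :=
  (f.1, Sg w f.1, decide (Sg w f.1 = ∞))

@[reducible] noncomputable def τ (w : ℕ → ℝ≥0∞) : TopologicalSpace EndN :=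
  TopologicalSpace.induced (Φ w) inferInstance

theorem τ_polish (w : ℕ → ℝ≥0∞) : @PolishSpace EndN (τ w) := by
  classical
  letI := τ w
  have he : IsEmbedding (Φ w) := ⟨⟨rfl⟩, fun f g h => Subtype.ext (congrArg Prod.fst h)⟩
  have hr : range (Φ w) = ((⋂ n, {p | p.1 n < p.1 (n + 1)}) ∩ {p | Sg w p.1 ≤ p.2.1}) ∩
      ((⋂ q : ℚ, ({p | p.2.1 ≤ ENNReal.ofReal q} ∪ {p | ENNReal.ofReal q < Sg w p.1})) ∩
      ({p | p.2.2 = true ∧ p.2.1 = ∞} ∪ {p | p.2.2 = false ∧ p.2.1 < ∞})) := by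
    ext ⟨f, r, b⟩
    simp only [mem_inter_iff, mem_iInter, mem_setOf_eq, mem_union]
    constructor
    · rintro ⟨g, h⟩
      simp only [Φ, Prod.mk.injEq] at h
      obtain ⟨rfl, rfl, rfl⟩ := h
      refine ⟨⟨fun n => g.2 (Nat.lt_succ_self n), le_rfl⟩, fun q => le_or_gt _ _, ?_⟩
      by_cases h : Sg w g.1 = ∞ <;> simp [h, lt_top_iff_ne_top]
    · rintro ⟨⟨h1, h2⟩, h3, h4⟩
      have e : Sg w f = r := by
        refine le_antisymm h2 (le_of_not_gt fun h => ?_)
        obtain ⟨q, -, a, b⟩ := ENNReal.lt_iff_exists_rat_btwn.1 h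
        rcases h3 q with c | c
        · exact absurd b (not_lt.2 c)
        · exact absurd a (not_lt.2 c.le)
      refine ⟨⟨f, strictMono_nat_of_lt_succ h1⟩, ?_⟩
      simp only [Φ, e, Prod.mk.injEq, true_and]
      rcases h4 with ⟨rfl, h⟩ | ⟨rfl, h⟩
      · simp [h]
      · simp [h.ne]
  have hg : IsGδ (range (Φ w)) := by
    rw [hr]
    refine IsGδ.inter (IsGδ.inter (IsClosed.isGδ (isClosed_iInter fun n => ?_)) (IsClosed.isGδ ?_))
      (IsGδ.inter (IsGδ.iInter fun q => IsGδ.union (IsClosed.isGδ ?_) (IsOpen.isGδ ?_))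
        (IsGδ.union (IsClosed.isGδ ?_) (IsOpen.isGδ ?_)))
    · exact (isClosed_discrete {x : ℕ × ℕ | x.1 < x.2}).preimage
        (f := fun p : (ℕ → ℕ) × ℝ≥0∞ × Bool => (p.1 n, p.1 (n + 1))) (by fun_prop)
    · exact (lsc w).isClosed_epigraph.preimage
        (f := fun p : (ℕ → ℕ) × ℝ≥0∞ × Bool => (p.1, p.2.1)) (by fun_prop)
    · exact isClosed_le (by fun_prop) continuous_const
    · exact ((lsc w).isOpen_preimage _).preimage continuous_fst
    · exact (isClosed_eq (by fun_prop) continuous_const).inter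
        (isClosed_eq (by fun_prop) continuous_const)
    · exact ((isOpen_discrete {false}).preimage
        (f := fun p : (ℕ → ℕ) × ℝ≥0∞ × Bool => p.2.2) (by fun_prop)).inter
        (isOpen_lt (continuous_fst.comp continuous_snd) continuous_const)
  haveI := polish_gd hg
  exact he.toHomeomorph.isClosedEmbedding.polishSpace

theorem τ_mul {w : ℕ → ℝ≥0∞} (hw : Wt w) : @ContinuousMul EndN (τ w) _ := by
  classical
  letI := τ w
  have hΦ : Continuous (Φ w) := continuous_induced_dom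
  have c1 : Continuous fun f : EndN => (show ℕ → ℕ from f.1) := continuous_fst.comp hΦ
  have c2 : Continuous fun f : EndN => Sg w f.1 := continuous_fst.comp (continuous_snd.comp hΦ)
  have c3 : Continuous fun f : EndN => decide (Sg w f.1 = ∞) :=
    continuous_snd.comp (continuous_snd.comp hΦ)
  have d1 : Continuous fun p : EndN × EndN => ((p.1.1 : ℕ → ℕ) ∘ (p.2.1 : ℕ → ℕ)) := by
    refine continuous_pi fun n => continuous_iff_continuousAt.2 fun p => ?_
    refine tendsto_const_nhds.congr' ?_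
    filter_upwards [((c1.comp continuous_fst).tendsto p).eventually (agree p.1.1 (p.2.1 n)),
      ((c1.comp continuous_snd).tendsto p).eventually (agree p.2.1 n)] with q h1 h2
    have a1 : q.1.1 (p.2.1 n) = p.1.1 (p.2.1 n) := h1 _ le_rfl
    have a2 : q.2.1 n = p.2.1 n := h2 _ le_rfl
    show p.1.1 (p.2.1 n) = q.1.1 (q.2.1 n)
    rw [a2, a1]
  refine ⟨continuous_induced_rng.2 (d1.prodMk (Continuous.prodMk ?_ ?_))⟩
  · refine continuous_iff_continuousAt.2 fun p => tendsto_order.2 ⟨fun a ha => ?_, fun a ha => ?_⟩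
    · exact d1.continuousAt (x := p) (lsc w _ a ha)
    · have hfin : Sg w (p.1.1 ∘ p.2.1) ≠ ∞ := (lt_of_lt_of_le ha le_top).ne
      rw [Ne, fin_iff hw p.1.2 p.2.2, not_or] at hfin
      obtain ⟨ε, hε, hε'⟩ := ENNReal.lt_iff_exists_add_pos_lt.1 ha
      obtain ⟨δ, hδ, hδ'⟩ : ∃ δ : ℝ≥0∞, 0 < δ ∧ δ + δ + δ ≤ ε :=
        ⟨ε / 3, ENNReal.div_pos (by simpa using hε.ne') (by simp), (ENNReal.add_thirds _).le⟩
      obtain ⟨M, hM⟩ := tail hfin.2 hδ
      filter_upwards [((c1.comp continuous_fst).tendsto p).eventually (agree p.1.1 M),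
        ((c1.comp continuous_snd).tendsto p).eventually (agree p.2.1 M),
        (c2.comp continuous_fst).continuousAt (x := p)
          (gt_mem_nhds (ENNReal.lt_add_right hfin.1 hδ.ne')),
        (c2.comp continuous_snd).continuousAt (x := p)
          (gt_mem_nhds (ENNReal.lt_add_right hfin.2 hδ.ne'))] with q h1 h2 h3 h4
      have h1' : ∀ n ≤ M, q.1.1 n = p.1.1 n := h1
      have h2' : ∀ n ≤ M, q.2.1 n = p.2.1 n := h2
      have h3' : Sg w q.1.1 < Sg w p.1.1 + δ := h3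
      have h4' : Sg w q.2.1 < Sg w p.2.1 + δ := h4
      have e1 : ∀ u v : ℕ → ℝ≥0∞, (∀ d ≤ M, u d = v d) →
          ∑ d ∈ Finset.range M, tm u q.2.1 d = ∑ d ∈ Finset.range M, tm v p.2.1 d :=
        fun u v h => Finset.sum_congr rfl fun d hd => by
          have := Finset.mem_range.1 hd
          exact tm_congr (h d (by omega)) fun n hn => h2' n (by omega)
      have e2 : ∑' d, tm w q.2.1 (d + M) ≤ δ + δ := by
        have hh : ∑ d ∈ Finset.range M, tm w p.2.1 d ≠ ∞ :=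
          ne_top_of_le_ne_top hfin.2 (ENNReal.sum_le_tsum _)
        rw [split w q.2.1 M, split w p.2.1 M, e1 w w fun _ _ => rfl, add_assoc,
          ENNReal.add_lt_add_iff_left hh] at h4'
        exact h4'.le.trans (add_le_add hM.le le_rfl)
      refine lt_of_le_of_lt ?_ hε'
      show Sg w (q.1.1 ∘ q.2.1) ≤ Sg w (p.1.1 ∘ p.2.1) + ε
      rw [Sg_comp w q.1.2 q.2.2, Sg_comp w p.1.2 p.2.2, split _ q.2.1 M,
        e1 (w ∘ q.1.1) (w ∘ p.1.1) fun d hd => congrArg w (h1' d hd)]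
      have e3 : ∑' d, tm (w ∘ q.1.1) q.2.1 (d + M) ≤ δ + δ :=
        (ENNReal.tsum_le_tsum fun d => le_tm hw q.1.2 _ _).trans e2
      have e4 : ∑ d ∈ Finset.range M, tm (w ∘ p.1.1) p.2.1 d ≤ Sg (w ∘ p.1.1) p.2.1 :=
        ENNReal.sum_le_tsum _
      calc _ ≤ (Sg w p.1.1 + δ) + (Sg (w ∘ p.1.1) p.2.1 + (δ + δ)) :=
            add_le_add h3'.le (add_le_add e4 e3)
        _ = Sg w p.1.1 + Sg (w ∘ p.1.1) p.2.1 + (δ + δ + δ) := by ring
        _ ≤ _ := add_le_add le_rfl hδ'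
  · have : (fun p : EndN × EndN => decide (Sg w ((p.1 * p.2).1) = ∞)) =
        fun p => (decide (Sg w p.1.1 = ∞) || decide (Sg w p.2.1 = ∞)) := by
      funext p
      rw [← Bool.decide_or]
      exact decide_eq_decide.2 (fin_iff hw p.1.2 p.2.2)
    show Continuous fun p : EndN × EndN => decide (Sg w ((p.1 * p.2).1) = ∞)
    rw [this]
    exact (continuous_of_discreteTopology (f := fun x : Bool × Bool => x.1 || x.2)).comp
      ((c3.comp continuous_fst).prodMk (c3.comp continuous_snd))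

theorem τ_open (w : ℕ → ℝ≥0∞) : IsOpen[τ w] {f : EndN | Sg w f.1 = ∞} := by
  classical
  letI := τ w
  have hΦ : Continuous (Φ w) := continuous_induced_dom
  have := (isOpen_discrete {true}).preimage (continuous_snd.comp (continuous_snd.comp hΦ))
  convert this using 1
  ext f
  simp [Φ]

noncomputable def W (α : ℝ) (m : ℕ) : ℝ≥0∞ := ENNReal.ofReal (((m : ℝ) + 1) ^ (-α))

theorem wt {α : ℝ} (h0 : 0 < α) (h1 : α < 1) : Wt (W α) := by
  refine ⟨fun m n h => ENNReal.ofReal_le_ofReal ?_, fun m => ?_, fun C => ?_⟩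
  · exact Real.rpow_le_rpow_of_nonpos (by positivity) (by simpa using h) (by linarith)
  · rw [← ENNReal.ofReal_natCast, ← ENNReal.ofReal_inv_of_pos (by positivity)]
    apply ENNReal.ofReal_le_ofReal
    rw [← Real.rpow_neg_one]
    push_cast
    exact Real.rpow_le_rpow_of_exponent_le (by simp) (by linarith)
  · refine ⟨ENNReal.ofReal ((C : ℝ) ^ α), ENNReal.ofReal_ne_top, fun n m h => ?_⟩
    unfold W
    rw [← ENNReal.ofReal_mul (by positivity)]
    apply ENNReal.ofReal_le_ofReal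
    have h' : (m : ℝ) + 1 ≤ C * (n + 1) := by exact_mod_cast h
    have hC : (0 : ℝ) < C := by
      rcases Nat.eq_zero_or_pos C with rfl | h2
      · simp at h
      · exact_mod_cast h2
    have a1 := Real.rpow_le_rpow_of_nonpos (by positivity) h' (by linarith : -α ≤ 0)
    rw [Real.mul_rpow hC.le (by positivity), Real.rpow_neg hC.le,
      inv_mul_le_iff₀ (by positivity)] at a1
    exact a1

noncomputable def dd (α : ℝ) (n : ℕ) : ℕ := 2 * (n + ⌊((n : ℝ) + 1) ^ (1 / α)⌋₊)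

theorem dd_mono {α : ℝ} (h0 : 0 < α) : StrictMono (dd α) := by
  intro m n h
  have : ⌊((m : ℝ) + 1) ^ (1 / α)⌋₊ ≤ ⌊((n : ℝ) + 1) ^ (1 / α)⌋₊ :=
    Nat.floor_mono (Real.rpow_le_rpow (by positivity) (by simpa using h.le) (by positivity))
  unfold dd
  omega

theorem ex_x {α : ℝ} (h0 : 0 < α) (h1 : α < 1) :
    ∃ f : EndN, Sg (W α) f.1 = ∞ ∧ ∀ β, α < β → Sg (W β) f.1 ≠ ∞ := by
  classical
  have hinf : {m | m ∉ range (dd α)}.Infinite := by
    refine Set.infinite_of_injective_forall_mem (f := fun k : ℕ => 2 * k + 1)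
      (fun a b h => by simpa using h) ?_
    rintro k ⟨n, hn⟩
    unfold dd at hn
    omega
  have hf := Nat.nth_strictMono hinf
  have hS : ∀ u : ℕ → ℝ≥0∞, Sg u (Nat.nth fun m => m ∉ range (dd α)) = ∑' n, u (dd α n) := by
    intro u
    unfold Sg
    rw [← (dd_mono h0).injective.tsum_eq]
    · refine tsum_congr fun n => tm_of_not hf ?_
      rw [Nat.range_nth_of_infinite hinf]
      exact fun h => h ⟨n, rfl⟩
    · intro m hm
      by_contra h
      exact hm (tm_of_mem hf (by rw [Nat.range_nth_of_infinite hinf]; exact h))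
  have lo : ∀ n : ℕ, ((n : ℝ) + 1) ^ (1 / α) ≤ (dd α n : ℝ) + 1 := by
    intro n
    have := Nat.lt_floor_add_one (((n : ℝ) + 1) ^ (1 / α))
    unfold dd
    push_cast
    have h2 : (0 : ℝ) ≤ n := by positivity
    have h3 : (0 : ℝ) ≤ ⌊((n : ℝ) + 1) ^ (1 / α)⌋₊ := by positivity
    linarith
  have hi : ∀ n : ℕ, (dd α n : ℝ) + 1 ≤ 4 * ((n : ℝ) + 1) ^ (1 / α) := by
    intro n
    have a1 := Nat.floor_le (show 0 ≤ ((n : ℝ) + 1) ^ (1 / α) by positivity)
    have a2 : ((n : ℝ) + 1) ^ (1 : ℝ) ≤ ((n : ℝ) + 1) ^ (1 / α) :=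
      Real.rpow_le_rpow_of_exponent_le (by simp) (by rw [le_div_iff₀ h0]; linarith)
    rw [Real.rpow_one] at a2
    unfold dd
    push_cast
    linarith
  have sm : ∀ p : ℝ, Summable (fun n : ℕ => ((n : ℝ) + 1) ^ (-p)) ↔ 1 < p := by
    intro p
    rw [← Real.summable_nat_rpow_inv, ← summable_nat_add_iff 1 (f := fun n : ℕ => ((n : ℝ) ^ p)⁻¹)]
    refine summable_congr fun n => ?_
    rw [Real.rpow_neg (by positivity)]
    push_cast
    rfl
  refine ⟨⟨_, hf⟩, ?_, fun β hβ => ?_⟩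
  · show Sg _ (Nat.nth _) = _
    rw [hS]
    by_contra hne
    have s1 : Summable fun n => ((dd α n : ℝ) + 1) ^ (-α) := by
      have := ENNReal.summable_toReal hne
      refine this.congr fun n => ENNReal.toReal_ofReal (by positivity)
    have s2 : Summable fun n : ℕ => ((n : ℝ) + 1) ^ (-(1 : ℝ)) := by
      refine Summable.of_nonneg_of_le (fun n => by positivity) (fun n => ?_)
        (s1.mul_left ((4 : ℝ) ^ α))
      have a1 := Real.rpow_le_rpow_of_nonpos (by positivity) (hi n) (by linarith : -α ≤ 0)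
      rw [Real.mul_rpow (by norm_num) (by positivity), Real.rpow_neg (by norm_num : (0 : ℝ) ≤ 4),
        inv_mul_le_iff₀ (by positivity), ← Real.rpow_mul (by positivity)] at a1
      have e : 1 / α * -α = -1 := by field_simp
      rwa [e] at a1
    exact lt_irrefl _ ((sm 1).1 s2)
  · show Sg _ (Nat.nth _) ≠ _
    rw [hS]
    have s1 : Summable fun n => ((dd α n : ℝ) + 1) ^ (-β) := by
      refine Summable.of_nonneg_of_le (fun n => by positivity) (fun n => ?_)
        ((sm (β / α)).2 (by rw [lt_div_iff₀ h0]; linarith))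
      have a1 := Real.rpow_le_rpow_of_nonpos (by positivity) (lo n) (by linarith : -β ≤ 0)
      rw [← Real.rpow_mul (by positivity)] at a1
      have e : 1 / α * -β = -(β / α) := by ring
      rwa [e] at a1
    unfold W
    rw [← ENNReal.ofReal_tsum_of_nonneg (fun n => by positivity) s1]
    exact ENNReal.ofReal_ne_top

/-- `End(ℕ,<)` has no finest Polish semigroup topology. -/
theorem result : ∀ t : TopologicalSpace EndN, IsPolishSemigroupTop t →
    ∃ t' : TopologicalSpace EndN, IsPolishSemigroupTop t' ∧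
      ∃ U : Set EndN, IsOpen[t'] U ∧ ¬ IsOpen[t] U := by
  intro t ht
  by_contra hno
  push Not at hno
  haveI := ht.2
  have h1 : ∀ α : Ioo (0 : ℝ) 1, ∃ (f : EndN) (B : TopologicalSpace.countableBasis EndN),
      f ∈ B.1 ∧ (∀ g ∈ B.1, Sg (W α) g.1 = ∞) ∧ ∀ β, α.1 < β → Sg (W β) f.1 ≠ ∞ := by
    intro α
    obtain ⟨f, h1, h2⟩ := ex_x α.2.1 α.2.2
    obtain ⟨B, hB, a, b⟩ := (TopologicalSpace.isBasis_countableBasis EndN).exists_subset_of_mem_open
      (show f ∈ {f : EndN | Sg (W α) f.1 = ∞} from h1)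
      (hno _ ⟨τ_mul (wt α.2.1 α.2.2), τ_polish _⟩ _ (τ_open _))
    exact ⟨f, ⟨B, hB⟩, a, b, h2⟩
  choose f B hB using h1
  have hinj : Function.Injective B := by
    intro α β h
    rcases lt_trichotomy α β with c | c | c
    · exact absurd ((hB β).2.1 _ (h ▸ (hB α).1)) ((hB α).2.2 β c)
    · exact c
    · exact absurd ((hB α).2.1 _ (h ▸ (hB β).1)) ((hB β).2.2 α c)
  haveI := (TopologicalSpace.countable_countableBasis EndN).to_subtype
  have hc : Countable (Ioo (0 : ℝ) 1) := hinj.countable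
  rw [← Cardinal.mk_le_aleph0_iff, Cardinal.mk_Ioo_real one_pos] at hc
  exact absurd hc (not_le.2 Cardinal.aleph0_lt_continuum)

end Pool.Agent.Results.MP_0c7c8f_al.NoFinest
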